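import Pool.Agent.Work.MP_db9399_ow.Interface

/-!
# MP_db9399, OWN, block TWO: two local minima in a neighbourhood
-/

set_option autoImplicit false

namespace Pool.Agent.Work.MP_db9399_ow.helper14

open Finset Classical
open Pool.Agent.Work.MP_db9399_all (nb mis pr DepOnI)
open Pool.Agent.Work.MP_db9399_en (ex ex_prod ex_mono ex_sum ex_nonneg ex_one ex_const_mul
  chern_low card_pos depI_mono)

universe u

/-- expectation of a function of one coordinate -/
theorem ex_coord {J : Type u} [Fintype J] {M : ℕ} (hM : 0 < M) (j : J) (f : Fin M → ℝ) :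
    ex (fun ω : J → Fin M => f (ω j)) = (∑ t, f t) / M := by
  have h1 : ∑ ω : J → Fin M, f (ω j) =
      ∏ i : J, ∑ t : Fin M, (if i = j then f t else 1) := by
    rw [Finset.prod_univ_sum, Fintype.piFinset_univ]
    refine sum_congr rfl fun ω _ => ?_
    rw [Finset.prod_ite_eq' univ j (fun i => f (ω i))]
    simp
  have h2 : ∀ i : J, ∑ t : Fin M, (if i = j then f t else 1) =
      if i = j then ∑ t, f t else (M : ℝ) := by
    intro i
    by_cases h : i = j <;> simp [h]
  have h3 : (∏ i : J, (if i = j then ∑ t, f t else (M : ℝ))) * M =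
      (∑ t, f t) * (M : ℝ) ^ (Fintype.card J) := by
    rw [← mul_prod_erase univ _ (mem_univ j), if_pos rfl, mul_assoc]
    congr 1
    have : ∏ x ∈ univ.erase j, (if x = j then ∑ t, f t else (M : ℝ)) =
        ∏ x ∈ univ.erase j, (M : ℝ) := prod_congr rfl fun x hx => if_neg (ne_of_mem_erase hx)
    rw [this, prod_const, card_erase_of_mem (mem_univ j), card_univ, ← pow_succ]
    congr 1
    have : 0 < Fintype.card J := Fintype.card_pos_iff.2 ⟨j⟩
    omega
  have hM' : (M : ℝ) ≠ 0 := by exact_mod_cast hM.ne'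
  rw [ex, h1, prod_congr rfl fun i _ => h2 i, Fintype.card_fun, Fintype.card_fin,
    div_eq_div_iff (by push_cast; positivity) hM', h3]
  push_cast
  ring

/-- the probability of a product event -/
theorem ex_event {J : Type u} [Fintype J] {M : ℕ} (hM : 0 < M) (k : ℕ) (hk : k ≤ M)
    (X Y : Finset J) (hXY : Disjoint X Y) :
    ex (fun ω : J → Fin M => if (∀ x ∈ X, (ω x : ℕ) < k) ∧ ∀ y ∈ Y, k ≤ (ω y : ℕ) then (1 : ℝ)
      else 0) = ((k : ℝ) / M) ^ X.card * (1 - (k : ℝ) / M) ^ Y.card := by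
  have hM' : (M : ℝ) ≠ 0 := by exact_mod_cast hM.ne'
  have hk1 : ((univ.filter fun t : Fin M => (t : ℕ) < k).card : ℝ) = k := by
    have : (univ.filter fun t : Fin M => (t : ℕ) < k).card = k := by
      have := Fin.card_filter_val_lt (n := M) (m := k)
      rw [this]; exact min_eq_right hk
    rw [this]
  have hk2 : ((univ.filter fun t : Fin M => k ≤ (t : ℕ)).card : ℝ) = M - k := by
    have h := card_filter_add_card_filter_not (s := (univ : Finset (Fin M))) (fun t => (t : ℕ) < k)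
    simp only [not_lt, card_univ, Fintype.card_fin] at h
    have h' : ((univ.filter fun t : Fin M => (t : ℕ) < k).card : ℝ) +
      ((univ.filter fun t : Fin M => k ≤ (t : ℕ)).card : ℝ) = M := by exact_mod_cast h
    rw [hk1] at h'
    linarith
  have h1 : (fun ω : J → Fin M => if (∀ x ∈ X, (ω x : ℕ) < k) ∧ ∀ y ∈ Y, k ≤ (ω y : ℕ) then (1 : ℝ)
      else 0) = fun ω => ∏ j ∈ X ∪ Y, (if j ∈ X then (if (ω j : ℕ) < k then (1 : ℝ) else 0) else
        (if k ≤ (ω j : ℕ) then (1 : ℝ) else 0)) := by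
    funext ω
    by_cases h : (∀ x ∈ X, (ω x : ℕ) < k) ∧ ∀ y ∈ Y, k ≤ (ω y : ℕ)
    · rw [if_pos h]
      symm
      refine prod_eq_one fun j hj => ?_
      by_cases hjX : j ∈ X
      · rw [if_pos hjX, if_pos (h.1 j hjX)]
      · have hjY : j ∈ Y := (mem_union.1 hj).resolve_left hjX
        rw [if_neg hjX, if_pos (h.2 j hjY)]
    · rw [if_neg h]
      symm
      rw [not_and_or] at h
      push Not at h
      rcases h with ⟨x, hx, hx'⟩ | ⟨y, hy, hy'⟩
      · refine prod_eq_zero (mem_union_left _ hx) ?_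
        rw [if_pos hx, if_neg (not_lt.2 hx')]
      · refine prod_eq_zero (mem_union_right _ hy) ?_
        rw [if_neg (Finset.disjoint_right.1 hXY hy), if_neg (not_le.2 hy')]
  rw [h1, ex_prod hM (X ∪ Y) (fun j => {j}) (fun j ω => (if j ∈ X then
      (if (ω j : ℕ) < k then (1 : ℝ) else 0) else (if k ≤ (ω j : ℕ) then (1 : ℝ) else 0)))
      (fun j _ a b hab => by simp only [hab j (mem_singleton_self j)])
      (fun i _ i' _ hii => by simpa using hii), prod_union hXY]
  congr 1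
  · rw [← prod_const]
    refine prod_congr rfl fun j hj => ?_
    rw [show (fun ω : J → Fin M => (if j ∈ X then (if (ω j : ℕ) < k then (1 : ℝ) else 0) else
        (if k ≤ (ω j : ℕ) then (1 : ℝ) else 0))) = fun ω => (fun t : Fin M => if (t : ℕ) < k then
          (1 : ℝ) else 0) (ω j) from funext fun ω => if_pos hj,
      ex_coord hM j (fun t : Fin M => if (t : ℕ) < k then (1 : ℝ) else 0)]
    rw [sum_boole, hk1]
  · rw [← prod_const]
    refine prod_congr rfl fun j hj => ?_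
    have hjX : j ∉ X := Finset.disjoint_right.1 hXY hj
    rw [show (fun ω : J → Fin M => (if j ∈ X then (if (ω j : ℕ) < k then (1 : ℝ) else 0) else
        (if k ≤ (ω j : ℕ) then (1 : ℝ) else 0))) = fun ω => (fun t : Fin M => if k ≤ (t : ℕ) then
          (1 : ℝ) else 0) (ω j) from funext fun ω => if_neg hjX,
      ex_coord hM j (fun t : Fin M => if k ≤ (t : ℕ) then (1 : ℝ) else 0)]
    rw [sum_boole, hk2]
    field_simp

theorem pow_low (D n : ℕ) (hD : 2 ≤ D) (hn : n ≤ 3 * D) :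
    1 / 64 ≤ (1 - 1 / (D : ℝ)) ^ n := by
  have hD0 : (0 : ℝ) < D := by positivity
  have h1 : (1 : ℝ) / D ≤ 1 / 2 := by
    apply one_div_le_one_div_of_le (by norm_num)
    exact_mod_cast hD
  have h0 : 0 ≤ 1 - 1 / (D : ℝ) := by linarith
  have hq : (1 : ℝ) / 4 ≤ (1 - 1 / (D : ℝ)) ^ D := by
    have hb := one_add_mul_self_le_rpow_one_add (s := -(1 / (D : ℝ))) (by linarith)
      (p := (D : ℝ) / 2) (by
        have : (2 : ℝ) ≤ D := by exact_mod_cast hD
        linarith)
    have e1 : 1 + (D : ℝ) / 2 * (-(1 / (D : ℝ))) = 1 / 2 := by field_simp; norm_num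
    rw [e1, ← sub_eq_add_neg] at hb
    have e2 : ((1 - 1 / (D : ℝ)) ^ ((D : ℝ) / 2)) ^ 2 = (1 - 1 / (D : ℝ)) ^ D := by
      rw [← Real.rpow_natCast, ← Real.rpow_mul h0, ← Real.rpow_natCast]
      congr 1
      push_cast
      ring
    rw [← e2]
    nlinarith
  calc (1 : ℝ) / 64 = (1 / 4) ^ 3 := by norm_num
    _ ≤ ((1 - 1 / (D : ℝ)) ^ D) ^ 3 := pow_le_pow_left₀ (by norm_num) hq 3
    _ = (1 - 1 / (D : ℝ)) ^ (3 * D) := by rw [← pow_mul, mul_comm]
    _ ≤ (1 - 1 / (D : ℝ)) ^ n := pow_le_pow_of_le_one h0 (by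
        have : 0 < 1 / (D : ℝ) := by positivity
        linarith) hn

/-- the event of an ordered pair: only `w`, `w'` have labels `< N1` -/
def Ev {V : Type u} [Fintype V] {P M : ℕ} (G : SimpleGraph V) (U : Finset V) (N1 : ℕ) (b : Fin P)
    (v : V) (p : V × V) (ω : Fin P × V → Fin M) : Prop :=
  (∀ x ∈ ({(b, p.1), (b, p.2)} : Finset (Fin P × V)), (ω x : ℕ) < N1) ∧
    ∀ y ∈ ((((nb G v ∪ nb G p.1 ∪ nb G p.2) ∩ U) \ {p.1, p.2}).image fun u => (b, u)),
      N1 ≤ (ω y : ℕ)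

theorem mem_nb {V : Type u} [Fintype V] (G : SimpleGraph V) (v w : V) : w ∈ nb G v ↔ G.Adj v w := by
  simp [nb]

theorem ev_ex {V : Type u} [Fintype V] (P D N1 : ℕ) (G : SimpleGraph V) (U : Finset V)
    (b : Fin P) (v : V) (hD : 2 ≤ D) (hN : 1 ≤ N1) (hND : N1 < D)
    (hdeg : ∀ w, (nb G w ∩ U).card + 1 ≤ D) (p : V × V) (hp : p ∈ mis G (nb G v ∩ U)) :
    1 / (64 * (D : ℝ) ^ 2) ≤
      ex (fun ω : Fin P × V → Fin (D * N1) => if Ev G U N1 b v p ω then (1 : ℝ) else 0) := by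
  have hM : 0 < D * N1 := by positivity
  have hp' : p.1 ≠ p.2 := (mem_filter.1 hp).2.1
  have hdis : Disjoint ({(b, p.1), (b, p.2)} : Finset (Fin P × V))
      ((((nb G v ∪ nb G p.1 ∪ nb G p.2) ∩ U) \ {p.1, p.2}).image fun u => (b, u)) := by
    rw [Finset.disjoint_left]
    intro x hx hx'
    obtain ⟨u, hu, rfl⟩ := mem_image.1 hx'
    have hu' := (mem_sdiff.1 hu).2
    apply hu'
    simp only [mem_insert, mem_singleton, Prod.mk.injEq, true_and] at hx ⊢
    exact hx
  have h := ex_event hM N1 (Nat.le_mul_of_pos_left N1 (by omega)) _ _ hdis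
  have hD0 : (0 : ℝ) < D := by positivity
  have hN0 : (0 : ℝ) < N1 := by positivity
  have hfr : (N1 : ℝ) / ((D * N1 : ℕ) : ℝ) = 1 / D := by
    push_cast
    field_simp
  have e1 : ex (fun ω : Fin P × V → Fin (D * N1) => if Ev G U N1 b v p ω then (1 : ℝ) else 0) =
      (1 / (D : ℝ)) ^ 2 * (1 - 1 / (D : ℝ)) ^
        (((((nb G v ∪ nb G p.1 ∪ nb G p.2) ∩ U) \ {p.1, p.2}).image fun u => (b, u)).card) := by
    rw [hfr, card_pair (by simpa using hp')] at h
    rw [← h]
    refine congrArg ex (funext fun ω => ?_)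
    by_cases hE : Ev G U N1 b v p ω
    · rw [if_pos hE]; exact (if_pos hE).symm
    · rw [if_neg hE]; exact (if_neg hE).symm
  rw [e1]
  have hc : (((((nb G v ∪ nb G p.1 ∪ nb G p.2) ∩ U) \ {p.1, p.2}).image fun u => (b, u)).card)
      ≤ 3 * D := by
    refine card_image_le.trans ((card_le_card sdiff_subset).trans ?_)
    rw [union_inter_distrib_right, union_inter_distrib_right]
    refine (card_union_le _ _).trans ?_
    have := card_union_le (nb G v ∩ U) (nb G p.1 ∩ U)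
    have h1 := hdeg v
    have h2 := hdeg p.1
    have h3 := hdeg p.2
    omega
  have hl := pow_low D _ hD hc
  calc 1 / (64 * (D : ℝ) ^ 2) = (1 / (D : ℝ)) ^ 2 * (1 / 64) := by field_simp
    _ ≤ _ := mul_le_mul_of_nonneg_left hl (by positivity)

theorem ev_two {V : Type u} [Fintype V] (P D N1 : ℕ) (G : SimpleGraph V) (U : Finset V)
    (b : Fin P) (v : V) (hN : 1 ≤ N1) (ω : Fin P × V → Fin (D * N1)) :
    ∑ p ∈ mis G (nb G v ∩ U), (if Ev G U N1 b v p ω then (1 : ℝ) else 0) ≤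
      2 * (if 2 ≤ (nb G v ∩ loc G U (N1 ^ 2) ω b).card then (1 : ℝ) else 0) := by
  rw [sum_boole]
  by_cases hne : ((mis G (nb G v ∩ U)).filter fun p => Ev G U N1 b v p ω).Nonempty
  · obtain ⟨p, hp⟩ := hne
    obtain ⟨hpm, hE1, hE2⟩ := mem_filter.1 hp
    obtain ⟨hpp, hp12, hpa⟩ := mem_filter.1 hpm
    rw [mem_product] at hpp
    have hw1 : (ω (b, p.1) : ℕ) < N1 := hE1 _ (by simp)
    have hw2 : (ω (b, p.2) : ℕ) < N1 := hE1 _ (by simp)
    have hoth : ∀ u ∈ U, (u ∈ nb G v ∨ u ∈ nb G p.1 ∨ u ∈ nb G p.2) → u ≠ p.1 → u ≠ p.2 →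
        N1 ≤ (ω (b, u) : ℕ) := by
      intro u hu hor h1 h2
      refine hE2 _ (mem_image.2 ⟨u, ?_, rfl⟩)
      simp only [mem_sdiff, mem_inter, mem_union, mem_insert, mem_singleton, not_or]
      exact ⟨⟨by tauto, hu⟩, h1, h2⟩
    have hNN : N1 ≤ N1 ^ 2 := by nlinarith
    have hl1 : p.1 ∈ loc G U (N1 ^ 2) ω b := by
      refine mem_filter.2 ⟨(mem_inter.1 hpp.1).2, hw1.trans_le hNN, fun w hw => ?_⟩
      have hw' := mem_inter.1 hw
      have ha : G.Adj p.1 w := (mem_nb G _ _).1 hw'.1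
      refine hw1.trans_le (hoth w hw'.2 (Or.inr (Or.inl hw'.1)) ha.ne' ?_)
      rintro rfl
      exact hpa ha
    have hl2 : p.2 ∈ loc G U (N1 ^ 2) ω b := by
      refine mem_filter.2 ⟨(mem_inter.1 hpp.2).2, hw2.trans_le hNN, fun w hw => ?_⟩
      have hw' := mem_inter.1 hw
      have ha : G.Adj p.2 w := (mem_nb G _ _).1 hw'.1
      refine hw2.trans_le (hoth w hw'.2 (Or.inr (Or.inr hw'.1)) ?_ ha.ne')
      rintro rfl
      exact hpa ha.symm
    have h2 : 2 ≤ (nb G v ∩ loc G U (N1 ^ 2) ω b).card := by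
      calc 2 = ({p.1, p.2} : Finset V).card := (card_pair hp12).symm
        _ ≤ _ := card_le_card fun x hx => by
          simp only [mem_insert, mem_singleton] at hx
          rcases hx with rfl | rfl
          · exact mem_inter.2 ⟨(mem_inter.1 hpp.1).1, hl1⟩
          · exact mem_inter.2 ⟨(mem_inter.1 hpp.2).1, hl2⟩
    rw [if_pos h2, mul_one]
    have hsub : ((mis G (nb G v ∩ U)).filter fun p => Ev G U N1 b v p ω) ⊆
        {(p.1, p.2), (p.2, p.1)} := by
      intro q hq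
      obtain ⟨hqm, hF1, -⟩ := mem_filter.1 hq
      obtain ⟨hqq, hq12, -⟩ := mem_filter.1 hqm
      rw [mem_product] at hqq
      have a1 : (ω (b, q.1) : ℕ) < N1 := hF1 _ (by simp)
      have a2 : (ω (b, q.2) : ℕ) < N1 := hF1 _ (by simp)
      have b1 : q.1 = p.1 ∨ q.1 = p.2 := by
        by_contra h
        rw [not_or] at h
        have := hoth q.1 (mem_inter.1 hqq.1).2 (Or.inl (mem_inter.1 hqq.1).1) h.1 h.2
        omega
      have b2 : q.2 = p.1 ∨ q.2 = p.2 := by
        by_contra h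
        rw [not_or] at h
        have := hoth q.2 (mem_inter.1 hqq.2).2 (Or.inl (mem_inter.1 hqq.2).1) h.1 h.2
        omega
      simp only [mem_insert, mem_singleton, Prod.ext_iff]
      rcases b1 with b1 | b1 <;> rcases b2 with b2 | b2
      · exact absurd (b1.trans b2.symm) hq12
      · exact Or.inl ⟨b1, b2⟩
      · exact Or.inr ⟨b1, b2⟩
      · exact absurd (b1.trans b2.symm) hq12
    have := (card_le_card hsub).trans card_le_two
    exact_mod_cast this
  · rw [not_nonempty_iff_eq_empty.1 hne, card_empty, Nat.cast_zero]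
    positivity

/-- one colour -/
theorem one_col {V : Type u} [Fintype V] (P D N1 : ℕ) (G : SimpleGraph V) (U : Finset V)
    (b : Fin P) (v : V) (a : ℝ) (hD : 2 ≤ D) (hN : 1 ≤ N1) (hND : N1 < D)
    (hdeg : ∀ w, (nb G w ∩ U).card + 1 ≤ D)
    (ha : a * (D : ℝ) ^ 2 ≤ ((mis G (nb G v ∩ U)).card : ℝ)) :
    a / 128 ≤ ex (fun ω : Fin P × V → Fin (D * N1) =>
      if 2 ≤ (nb G v ∩ loc G U (N1 ^ 2) ω b).card then (1 : ℝ) else 0) := by
  have hM : 0 < D * N1 := by positivity
  have hD0 : (0 : ℝ) < D := by positivity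
  have h1 := ex_mono hM (fun ω => ev_two P D N1 G U b v hN ω)
  rw [ex_sum, ex_const_mul] at h1
  have h2 : ((mis G (nb G v ∩ U)).card : ℝ) * (1 / (64 * (D : ℝ) ^ 2)) ≤
      ∑ p ∈ mis G (nb G v ∩ U), ex (fun ω : Fin P × V → Fin (D * N1) =>
        if Ev G U N1 b v p ω then (1 : ℝ) else 0) := by
    rw [← nsmul_eq_mul]
    exact card_nsmul_le_sum _ _ _ fun p hp => ev_ex P D N1 G U b v hD hN hND hdeg p hp
  have h3 : a * (D : ℝ) ^ 2 * (1 / (64 * (D : ℝ) ^ 2)) ≤
      ((mis G (nb G v ∩ U)).card : ℝ) * (1 / (64 * (D : ℝ) ^ 2)) :=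
    mul_le_mul_of_nonneg_right ha (by positivity)
  have h4 : a * (D : ℝ) ^ 2 * (1 / (64 * (D : ℝ) ^ 2)) = a / 64 := by field_simp
  rw [h4] at h3
  linarith

/-- **TWO.** -/
theorem stmt_TWO : Stmt_TWO.{u} := by
  intro V _ P D N1 G U B v a hD hN hND ha ha1 hdeg hmis
  have hM : 0 < D * N1 := by positivity
  rcases B.eq_empty_or_nonempty with hB | hB
  · subst hB
    simp [pr]
  have hBc : (0 : ℝ) < B.card := by exact_mod_cast hB.card_pos
  let X : Fin P → (Fin P × V → Fin (D * N1)) → ℝ := fun b ω =>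
    if 2 ≤ (nb G v ∩ loc G U (N1 ^ 2) ω b).card then (1 : ℝ) else 0
  let Q : Fin P → Finset (Fin P × V) := fun b => univ.filter fun y => y.1 = b
  have hX : ∀ b ∈ B, DepOnI (Q b) (X b) := by
    intro b _ ω ω' h
    have : loc G U (N1 ^ 2) ω b = loc G U (N1 ^ 2) ω' b := by
      refine filter_congr fun w _ => ?_
      have h1 : ∀ u, ω (b, u) = ω' (b, u) := fun u => h (b, u) (by simp [Q])
      simp only [h1]
    simp only [X, this]
  have hQ : ∀ b ∈ B, ∀ b' ∈ B, b ≠ b' → Disjoint (Q b) (Q b') := by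
    intro b _ b' _ hne
    rw [Finset.disjoint_left]
    intro y hy hy'
    exact hne (((mem_filter.1 hy).2).symm.trans (mem_filter.1 hy').2)
  have h0 : ∀ b ∈ B, ∀ ω, 0 ≤ X b ω := by
    intro b _ ω; simp only [X]; split_ifs <;> norm_num
  have h1 : ∀ b ∈ B, ∀ ω, X b ω ≤ 1 := by
    intro b _ ω; simp only [X]; split_ifs <;> norm_num
  have hlow : a / 128 * B.card ≤ ∑ b ∈ B, ex (X b) := by
    rw [mul_comm, ← nsmul_eq_mul]
    exact card_nsmul_le_sum _ _ _ fun b _ => one_col P D N1 G U b v a hD hN hND hdeg hmis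
  have hup : ∑ b ∈ B, ex (X b) ≤ B.card := by
    have : ∀ b ∈ B, ex (X b) ≤ 1 := fun b hb => (ex_mono hM (h1 b hb)).trans_eq (ex_one hM)
    calc ∑ b ∈ B, ex (X b) ≤ ∑ b ∈ B, (1 : ℝ) := sum_le_sum this
      _ = B.card := by simp
  have hch := chern_low hM B Q X (B := 1) (m := B.card) (m0 := a / 128 * B.card)
    (s := a / 256 * B.card) hX hQ h0 h1 one_pos hBc hup hlow (by positivity) (by nlinarith)
  have hmono : pr (fun ω : Fin P × V → Fin (D * N1) =>
      ((B.filter (fun b => 2 ≤ (nb G v ∩ loc G U (N1 ^ 2) ω b).card)).card : ℝ) <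
        a / 256 * B.card) ≤ pr (fun ω : Fin P × V → Fin (D * N1) =>
        ∑ b ∈ B, X b ω ≤ a / 128 * B.card - a / 256 * B.card) := by
    rw [pr, pr]
    refine div_le_div_of_nonneg_right ?_ (Nat.cast_nonneg _)
    exact_mod_cast card_le_card fun ω hω => by
      refine mem_filter.2 ⟨mem_univ _, ?_⟩
      have h := (mem_filter.1 hω).2
      have e : ∑ b ∈ B, X b ω =
          ((B.filter (fun b => 2 ≤ (nb G v ∩ loc G U (N1 ^ 2) ω b).card)).card : ℝ) := by
        simp only [X, sum_boole]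
      rw [e]
      linarith
  have key : ∀ (i1 i2 : Fintype (Fin P × V → Fin (D * N1)))
      (E : (Fin P × V → Fin (D * N1)) → Prop), @pr _ i1 E = @pr _ i2 E := by
    intro i1 i2 E; rw [Subsingleton.elim i1 i2]
  refine hmono.trans ((key _ _ _).trans_le (hch.trans (Real.exp_le_exp.2 (neg_le_neg ?_))))
  rw [le_div_iff₀ (by positivity)]
  nlinarith [sq_nonneg a, mul_pos hBc hBc, mul_nonneg (sq_nonneg a) (mul_pos hBc hBc).le]

end Pool.Agent.Work.MP_db9399_ow.helper14
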